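import Pool.Agent.Y500.SK.Pars

/-! The energy identity (job SK-ENER, for helper303). -/

open Set Filter Topology MeasureTheory Metric

set_option autoImplicit false

namespace Pool.Agent.Y500.SK

open Pool.Agent.Y5 (E3)
open Pool.Agent.Y303.SK

theorem ipr_bound {Ω : Set E3} (f g : E3 → E3) (K : ℝ) (hΩ : IsOpen Ω)
    (hb : Bornology.IsBounded Ω) (hK : 0 ≤ K) (hf : ∀ x ∈ Ω, ‖f x‖ ≤ K) (hg : ∀ x ∉ Ω, g x = 0)
    (hg2 : Integrable (fun x => ‖g x‖ ^ 2)) (hn : ∫ x, ‖g x‖ ^ 2 = 1) :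
    |ipr f g| ≤ K * ((volume.real Ω + 1) / 2) := by
  have hvol : volume Ω ≠ ⊤ := hb.measure_lt_top.ne
  have hi : Integrable (Ω.indicator (fun _ : E3 => (1 : ℝ))) :=
    (integrable_indicator_iff hΩ.measurableSet).2 (integrableOn_const hvol)
  have h1 : ∫ x, Ω.indicator (fun _ : E3 => (1 : ℝ)) x = volume.real Ω := by
    rw [integral_indicator hΩ.measurableSet]
    simp
  have h2 : ∀ x, ‖inner ℝ (f x) (g x)‖ ≤
      K * ((Ω.indicator (fun _ : E3 => (1 : ℝ)) x + ‖g x‖ ^ 2) / 2) := by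
    intro x
    by_cases hx : x ∈ Ω
    · rw [indicator_of_mem hx]
      calc ‖inner ℝ (f x) (g x)‖ ≤ ‖f x‖ * ‖g x‖ := norm_inner_le_norm _ _
        _ ≤ K * ‖g x‖ := by gcongr; exact hf x hx
        _ ≤ _ := by
            gcongr
            nlinarith [sq_nonneg (‖g x‖ - 1)]
    · rw [indicator_of_notMem hx, hg x hx]; simp
  have h3 := norm_integral_le_of_norm_le (((hi.add hg2).div_const 2).const_mul K)
    (Eventually.of_forall h2)
  have h4 : ∫ x, K * ((Ω.indicator (fun _ : E3 => (1 : ℝ)) x + ‖g x‖ ^ 2) / 2) =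
      K * ((volume.real Ω + 1) / 2) := by
    rw [integral_const_mul, integral_div, integral_add hi hg2, h1, hn]
  rw [← h4]
  exact h3

theorem CS.zero {Ω : Set E3} {v : E3 → E3} (h : CS Ω v) : ∀ x ∉ Ω, v x = 0 := fun _ hx =>
  image_eq_zero_of_notMem_tsupport fun h' => hx (h.supp h')

theorem CS.sq_int {Ω : Set E3} {v : E3 → E3} (h : CS Ω v) : Integrable (fun x => ‖v x‖ ^ 2) :=
  int_cc _ (h.smooth.continuous.norm.pow 2) (tsupport v) h.cpt fun x hx => by
    rw [image_eq_zero_of_notMem_tsupport hx]; simp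

section one

variable {Ω : Set E3} {u : E3 → E3}

theorem cpt_of_zero (hb : Bornology.IsBounded Ω) (hz : ∀ x ∉ Ω, u x = 0) :
    HasCompactSupport u :=
  HasCompactSupport.intro (K := closure Ω) hb.isCompact_closure
    fun x hx => hz x fun h => hx (subset_closure h)

theorem dvg_zero (hu : ContDiff ℝ 1 u) (hz : ∀ x ∉ Ω, u x = 0) (hd : ∀ x ∈ Ω, dvg u x = 0) :
    ∀ x, dvg u x = 0 := by
  have hc : Continuous (dvg u) := by
    unfold dvg
    have huc1 : Continuous (fderiv ℝ u) := hu.continuous_fderiv (by norm_num)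
    exact continuous_finsetSum _ fun i _ =>
      (EuclideanSpace.proj i).continuous.comp (huc1.clm_apply continuous_const)
  have h1 : closure Ω ⊆ {x | dvg u x = 0} :=
    closure_minimal hd (isClosed_eq hc continuous_const)
  intro x
  by_cases hx : x ∈ closure Ω
  · exact h1 hx
  · have h2 : u =ᶠ[𝓝 x] fun _ => 0 := by
      filter_upwards [isClosed_closure.isOpen_compl.mem_nhds hx] with y hy
      exact hz y fun h => hy (subset_closure h)
    unfold dvg
    rw [h2.fderiv_eq]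
    simp

theorem lap_cont (hu : ContDiff ℝ 2 u) : Continuous (lap u) := by
  have hu1 : ContDiff ℝ 1 (fderiv ℝ u) := hu.fderiv_right (by norm_num)
  have hu2c : Continuous (fderiv ℝ (fderiv ℝ u)) := hu1.continuous_fderiv (by norm_num)
  unfold lap
  exact continuous_finsetSum _ fun i _ =>
    (hu2c.clm_apply continuous_const).clm_apply continuous_const

theorem lap_memLp (hu : ContDiff ℝ 2 u) (hc : HasCompactSupport u) : MemLp (lap u) 2 volume := by
  refine (lap_cont hu).memLp_of_hasCompactSupport ?_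
  refine HasCompactSupport.intro (K := tsupport u) hc fun x hx => ?_
  have h1 : fderiv ℝ (fderiv ℝ u) x = 0 := image_eq_zero_of_notMem_tsupport fun h =>
    hx (tsupport_fderiv_subset ℝ (tsupport_fderiv_subset ℝ h))
  unfold lap
  rw [h1]; simp

theorem adv_memLp (hu : ContDiff ℝ 2 u) (hc : HasCompactSupport u) :
    MemLp (fun x => fderiv ℝ u x (u x)) 2 volume := by
  have huc1 : Continuous (fderiv ℝ u) := hu.continuous_fderiv (by norm_num)
  refine (huc1.clm_apply hu.continuous).memLp_of_hasCompactSupport ?_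
  refine HasCompactSupport.intro (K := tsupport u) hc fun x hx => ?_
  rw [image_eq_zero_of_notMem_tsupport hx]; simp

theorem lap_le (x : E3) (M : ℝ) (h : ‖fderiv ℝ (fderiv ℝ u) x‖ ≤ M) : ‖lap u x‖ ≤ 3 * M := by
  unfold lap
  calc ‖∑ i : Fin 3, fderiv ℝ (fderiv ℝ u) x (cv i) (cv i)‖ ≤
        ∑ i : Fin 3, ‖fderiv ℝ (fderiv ℝ u) x (cv i) (cv i)‖ := norm_sum_le _ _
    _ ≤ ∑ _i : Fin 3, M := by
        refine Finset.sum_le_sum fun i _ => ?_
        have hc : ‖(cv i : E3)‖ = 1 := by simp [cv]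
        calc _ ≤ ‖fderiv ℝ (fderiv ℝ u) x (cv i)‖ * ‖(cv i : E3)‖ :=
              ContinuousLinearMap.le_opNorm _ _
          _ ≤ (‖fderiv ℝ (fderiv ℝ u) x‖ * ‖(cv i : E3)‖) * ‖(cv i : E3)‖ := by
              gcongr; exact ContinuousLinearMap.le_opNorm _ _
          _ ≤ M := by rw [hc]; linarith
    _ = 3 * M := by simp

end one

/-- Differentiation of a series of squares on a half open interval. -/
theorem series_deriv {ι : Type} (W W' : ι → ℝ → ℝ) (c : ι → ℝ) (T T' t : ℝ) (hc : Summable c)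
    (hd : ∀ i, ∀ τ ∈ Ico 0 T, HasDerivWithinAt (W i) (W' i τ) (Ico 0 T) τ)
    (hT' : T' < T) (hb : ∀ i, ∀ τ ∈ Icc 0 T', |W' i τ| ≤ c i) (ht : t ∈ Ico 0 T')
    (hs : Summable fun i => W i t) :
    HasDerivWithinAt (fun τ => ∑' i, W i τ) (∑' i, W' i t) (Ico 0 T) t := by
  have hT0 : 0 < T' := ht.1.trans_lt ht.2
  set V : ι → ℝ → ℝ := fun i τ => if τ < 0 then W i 0 + τ * W' i 0 else W i τ with hV
  set V' : ι → ℝ → ℝ := fun i τ => W' i (max τ 0) with hV'
  have h0 : (0 : ℝ) ∈ Ico 0 T := ⟨le_rfl, hT0.trans hT'⟩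
  have hVd : ∀ i, ∀ τ ∈ Ioo (-1 : ℝ) T', HasDerivAt (V i) (V' i τ) τ := by
    intro i τ hτ
    rcases lt_trichotomy τ 0 with h | h | h
    · have h1 : HasDerivAt (fun τ : ℝ => W i 0 + τ * W' i 0) (W' i 0) τ := by
        have := ((hasDerivAt_id τ).mul_const (W' i 0)).const_add (W i 0)
        simpa using this
      have h2 : V' i τ = W' i 0 := by simp only [hV']; rw [max_eq_right h.le]
      rw [h2]
      refine h1.congr_of_eventuallyEq ?_
      filter_upwards [Iio_mem_nhds h] with y hy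
      simp only [hV]; rw [if_pos (show y < 0 from hy)]
    · subst h
      have h2 : V' i 0 = W' i 0 := by simp only [hV']; rw [max_self]
      rw [h2]
      have hR : HasDerivWithinAt (V i) (W' i 0) (Ici 0) 0 := by
        have h3 := hd i 0 h0
        have h4 : HasDerivWithinAt (W i) (W' i 0) (Ici 0) 0 := by
          refine h3.mono_of_mem_nhdsWithin ?_
          exact Ico_mem_nhdsGE (hT0.trans hT')
        refine h4.congr (fun y hy => ?_) ?_
        · simp only [hV]; rw [if_neg (not_lt.2 hy)]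
        · simp only [hV]; rw [if_neg (lt_irrefl _)]
      have hL : HasDerivWithinAt (V i) (W' i 0) (Iic 0) 0 := by
        have h1 : HasDerivAt (fun τ : ℝ => W i 0 + τ * W' i 0) (W' i 0) 0 := by
          have := ((hasDerivAt_id (0 : ℝ)).mul_const (W' i 0)).const_add (W i 0)
          simpa using this
        refine h1.hasDerivWithinAt.congr (fun y hy => ?_) ?_
        · simp only [hV]
          rcases lt_or_eq_of_le (show y ≤ 0 from hy) with h5 | h5
          · rw [if_pos h5]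
          · rw [h5, if_neg (lt_irrefl _)]; ring
        · simp only [hV]; rw [if_neg (lt_irrefl _)]; ring
      have := hL.union hR
      rw [Iic_union_Ici] at this
      exact hasDerivWithinAt_univ.1 this
    · have h2 : V' i τ = W' i τ := by simp only [hV']; rw [max_eq_left h.le]
      rw [h2]
      have h3 : HasDerivAt (W i) (W' i τ) τ :=
        (hd i τ ⟨h.le, hτ.2.trans hT'⟩).hasDerivAt (Ico_mem_nhds h (hτ.2.trans hT'))
      refine h3.congr_of_eventuallyEq ?_
      filter_upwards [Ioi_mem_nhds h] with y hy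
      simp only [hV]; rw [if_neg (not_lt.2 (le_of_lt hy))]
  have hVb : ∀ i, ∀ τ ∈ Ioo (-1 : ℝ) T', ‖V' i τ‖ ≤ c i := by
    intro i τ hτ
    exact hb i (max τ 0) ⟨le_max_right _ _, max_le hτ.2.le hT0.le⟩
  have hVt : ∀ i, ∀ τ, 0 ≤ τ → V i τ = W i τ := fun i τ hτ => by
    simp only [hV]; rw [if_neg (not_lt.2 hτ)]
  have hti : t ∈ Ioo (-1 : ℝ) T' := ⟨by linarith [ht.1], ht.2⟩
  have key := hasDerivAt_tsum_of_isPreconnected hc isOpen_Ioo isPreconnected_Ioo hVd hVb hti
    (by simpa only [hVt _ t ht.1] using hs) hti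
  have e1 : ∑' i, V' i t = ∑' i, W' i t := by
    refine tsum_congr fun i => ?_
    simp only [hV']; rw [max_eq_left ht.1]
  rw [e1] at key
  refine key.hasDerivWithinAt.congr (fun y hy => ?_) ?_
  · exact tsum_congr fun i => (hVt i y hy.1).symm
  · exact tsum_congr fun i => (hVt i t ht.1).symm

theorem t_ENER : S_ENER := by
  intro Ω ν ι e σ s T u hΩ hb hS hu huc hbd t ht
  set T' := (t + T) / 2 with hT'
  have hT1 : T' < T := by rw [hT']; linarith [ht.2]
  have hT2 : t < T' := by rw [hT']; linarith [ht.2]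
  obtain ⟨b, hbs, hbb⟩ := hbd T' hT1
  obtain ⟨M, hM⟩ := hu.bdd T' hT1
  have hcpt : ∀ τ ∈ Ico 0 T, HasCompactSupport (u τ) := fun τ hτ =>
    cpt_of_zero hb (hu.zero τ hτ)
  -- the reduced right-hand side
  set g : ι → ℝ → ℝ := fun i τ => -(ν * dirf (u τ) (e i)) - adv (u τ) (u τ) (e i) with hg
  set z : ι → ℝ → ℝ := fun i τ => ipr (u τ) (e i) with hz
  have hzd : ∀ i, ∀ τ ∈ Ico 0 T, HasDerivWithinAt (z i) (s i * z (σ i) τ + g i τ) (Ico 0 T) τ := by
    intro i τ hτ
    refine (hu.eqn i τ hτ).congr_deriv ?_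
    simp only [hz, hg]; ring
  set W : ι → ℝ → ℝ := fun i τ => (z i τ ^ 2 + z (σ i) τ ^ 2) / 2 with hW
  set W' : ι → ℝ → ℝ := fun i τ => z i τ * g i τ + z (σ i) τ * g (σ i) τ with hW'
  have hWd : ∀ i, ∀ τ ∈ Ico 0 T, HasDerivWithinAt (W i) (W' i τ) (Ico 0 T) τ := by
    intro i τ hτ
    have h1 := ((hzd i τ hτ).pow 2).add ((hzd (σ i) τ hτ).pow 2)
    have h2 := h1.div_const 2
    refine h2.congr_deriv ?_
    simp only [hW', hS.inv i, hS.skew i]
    push_cast
    ring
  -- bounds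
  set V := (volume.real Ω + 1) / 2 with hV
  have hV0 : 0 ≤ V := by rw [hV]; positivity
  set M' := max M 0 with hM'
  have hM0 : 0 ≤ M' := le_max_right _ _
  have hen : ∀ i, ∫ x, ‖e i x‖ ^ 2 = 1 := by
    intro i
    have := (hS.orth i i).1 rfl
    unfold ipr at this
    simpa only [real_inner_self_eq_norm_sq] using this
  have hdl : ∀ i, ∀ τ ∈ Ico 0 T, dirf (u τ) (e i) = -ipr (lap (u τ)) (e i) := fun i τ hτ =>
    dirf_eq (u τ) (e i) (huc τ hτ) ((hS.field i).smooth.of_le (by exact_mod_cast le_top))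
      (hS.field i).cpt
  have hgb : ∀ i, ∀ τ ∈ Icc 0 T', |g i τ| ≤ |ν| * (3 * M' * V) + M' * M' * V := by
    intro i τ hτ
    have hτ' : τ ∈ Ico 0 T := ⟨hτ.1, hτ.2.trans_lt hT1⟩
    have h1 : |ipr (lap (u τ)) (e i)| ≤ 3 * M' * V :=
      ipr_bound _ _ (3 * M') hΩ hb (by positivity)
        (fun x hx => lap_le x M' ((hM τ hτ x hx).2.2.trans (le_max_left _ _)))
        (CS.zero (hS.field i)) (CS.sq_int (hS.field i)) (hen i)
    have h2 : |adv (u τ) (u τ) (e i)| ≤ M' * M' * V :=
      ipr_bound (fun x => fderiv ℝ (u τ) x (u τ x)) _ (M' * M') hΩ hb (by positivity)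
        (fun x hx => by
          have h3 := hM τ hτ x hx
          calc _ ≤ ‖fderiv ℝ (u τ) x‖ * ‖u τ x‖ := ContinuousLinearMap.le_opNorm _ _
            _ ≤ M' * M' := by
                have h4 := h3.1.trans (le_max_left M 0)
                have h5 := h3.2.1.trans (le_max_left M 0)
                gcongr)
        (CS.zero (hS.field i)) (CS.sq_int (hS.field i)) (hen i)
    simp only [hg]
    rw [hdl i τ hτ']
    calc _ ≤ |-(ν * -ipr (lap (u τ)) (e i))| + |adv (u τ) (u τ) (e i)| := abs_sub _ _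
      _ = |ν| * |ipr (lap (u τ)) (e i)| + |adv (u τ) (u τ) (e i)| := by
          rw [abs_neg, abs_mul, abs_neg]
      _ ≤ _ := by gcongr
  set Q := |ν| * (3 * M' * V) + M' * M' * V with hQ
  have hQ0 : 0 ≤ Q := by rw [hQ]; positivity
  -- the involution
  let S : ι ≃ ι := ⟨σ, σ, hS.inv, hS.inv⟩
  have hSσ : ∀ i, S i = σ i := fun _ => rfl
  have hbσ : Summable (fun i => b (σ i)) := (S.summable_iff (f := b)).2 hbs
  have hWb : ∀ i, ∀ τ ∈ Icc 0 T', |W' i τ| ≤ Q * (b i + b (σ i)) := by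
    intro i τ hτ
    have h1 := hbb τ hτ i
    have h2 := hbb τ hτ (σ i)
    have h3 := hgb i τ hτ
    have h4 := hgb (σ i) τ hτ
    have hb0 : 0 ≤ b i := (abs_nonneg _).trans h1
    have hb1 : 0 ≤ b (σ i) := (abs_nonneg _).trans h2
    calc |W' i τ| ≤ |z i τ * g i τ| + |z (σ i) τ * g (σ i) τ| := abs_add_le _ _
      _ = |z i τ| * |g i τ| + |z (σ i) τ| * |g (σ i) τ| := by rw [abs_mul, abs_mul]
      _ ≤ b i * Q + b (σ i) * Q := by gcongr
      _ = _ := by ring
  have hsum : ∀ τ ∈ Ico 0 T, HasSum (fun i => W i τ) (ipr (u τ) (u τ)) := by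
    intro τ hτ
    have h1 := parseval hS (u τ) (u τ) (hu.inH τ hτ) (hu.inH τ hτ).1
    have h2 : HasSum (fun i => ipr (u τ) (e (σ i)) * ipr (u τ) (e (σ i))) (ipr (u τ) (u τ)) :=
      (S.hasSum_iff (f := fun i => ipr (u τ) (e i) * ipr (u τ) (e i))).2 h1
    have h3 := (h1.add h2).div_const 2
    have h4 : (fun i => W i τ) = fun i => (ipr (u τ) (e i) * ipr (u τ) (e i) +
        ipr (u τ) (e (σ i)) * ipr (u τ) (e (σ i))) / 2 := by
      funext i; simp only [hW, hz]; ring
    rw [h4]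
    have h5 : ipr (u τ) (u τ) = (ipr (u τ) (u τ) + ipr (u τ) (u τ)) / 2 := by ring
    rw [h5]; exact h3
  have key := series_deriv W W' (fun i => Q * (b i + b (σ i))) T T' t
    ((hbs.add hbσ).mul_left Q) hWd hT1 hWb ⟨ht.1, hT2⟩ (hsum t ht).summable
  -- the value of the derivative
  have hval : HasSum (fun i => W' i t) (-(2 * (ν * dirf (u t) (u t)))) := by
    have hc := hcpt t ht
    have e1 := parseval hS (u t) (lap (u t)) (hu.inH t ht) (lap_memLp (huc t ht) hc)
    have e2 := parseval hS (u t) (fun x => fderiv ℝ (u t) x (u t x)) (hu.inH t ht)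
      (adv_memLp (huc t ht) hc)
    have e3 : ipr (u t) (lap (u t)) = -dirf (u t) (u t) := by
      rw [ipr_comm, dirf_eq (u t) (u t) (huc t ht) ((huc t ht).of_le (by norm_num)) hc]; ring
    have hdv := dvg_zero ((huc t ht).of_le (by norm_num)) (hu.zero t ht) (hu.dv t ht)
    have e4 : ipr (u t) (fun x => fderiv ℝ (u t) x (u t x)) = 0 := by
      rw [ipr_comm]; exact adv_self (u t) ((huc t ht).of_le (by norm_num)) hc hdv
    rw [e3] at e1
    rw [e4] at e2
    have e5 : HasSum (fun i => z i t * g i t) (-(ν * dirf (u t) (u t))) := by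
      have h1 := (e1.mul_left ν).sub e2
      have h2 : (fun i => z i t * g i t) = fun i => ν * (ipr (u t) (e i) * ipr (lap (u t)) (e i)) -
          ipr (u t) (e i) * ipr (fun x => fderiv ℝ (u t) x (u t x)) (e i) := by
        funext i
        simp only [hg, hz]
        rw [hdl i t ht]
        show ipr (u t) (e i) * (-(ν * -ipr (lap (u t)) (e i)) -
          ipr (fun x => fderiv ℝ (u t) x (u t x)) (e i)) = _
        ring
      rw [h2]
      have h3 : -(ν * dirf (u t) (u t)) = ν * -dirf (u t) (u t) - 0 := by ring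
      rw [h3]; exact h1
    have e6 : HasSum (fun i => z (σ i) t * g (σ i) t) (-(ν * dirf (u t) (u t))) :=
      (S.hasSum_iff (f := fun i => z i t * g i t)).2 e5
    have h4 := e5.add e6
    have h5 : -(2 * (ν * dirf (u t) (u t))) = -(ν * dirf (u t) (u t)) +
      -(ν * dirf (u t) (u t)) := by ring
    rw [h5]; exact h4
  rw [hval.tsum_eq] at key
  refine key.congr (fun τ hτ => ?_) ?_
  · exact (hsum τ hτ).tsum_eq.symm
  · exact (hsum t ht).tsum_eq.symm

end Pool.Agent.Y500.SK
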