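import Pool.Agent.Y303.SK.Stm

/-! Parseval and integration by parts (job SK-ENER, for helper303). -/

open Set Filter Topology MeasureTheory Metric

set_option autoImplicit false

namespace Pool.Agent.Y500.SK

open Pool.Agent.Y5 (E3)
open Pool.Agent.Y303.SK

section abs

variable {H ι : Type*} [NormedAddCommGroup H] [InnerProductSpace ℝ H]

theorem hasSum_of_approx (e : ι → H) (he : Orthonormal ℝ e) (v : H)
    (hv : ∀ ε > 0, ∃ (F : Finset ι) (b : ι → ℝ), ‖v - ∑ a ∈ F, b a • e a‖ < ε) :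
    HasSum (fun i => inner ℝ (e i) v • e i) v := by
  classical
  rw [HasSum, SummationFilter.unconditional_filter, Metric.tendsto_atTop]
  intro ε hε
  obtain ⟨F, b, hF⟩ := hv ε hε
  refine ⟨F, fun F' hF' => ?_⟩
  set p := ∑ i ∈ F', inner ℝ (e i) v • e i with hp
  set w := ∑ a ∈ F, b a • e a with hw
  have h1 : ∀ j ∈ F', inner ℝ (v - p) (e j) = 0 := by
    intro j hj
    rw [inner_sub_left, hp, he.inner_left_sum _ hj]
    simp [real_inner_comm]
  have h2 : inner ℝ (v - p) p = 0 := by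
    conv_lhs => rw [hp]
    rw [inner_sum]
    refine Finset.sum_eq_zero fun j hj => ?_
    rw [← hp, inner_smul_right, h1 j hj, mul_zero]
  have h3 : inner ℝ (v - p) w = 0 := by
    conv_lhs => rw [hw]
    rw [inner_sum]
    refine Finset.sum_eq_zero fun j hj => ?_
    rw [inner_smul_right, h1 j (hF' hj), mul_zero]
  have h4 : ‖v - w‖ ^ 2 = ‖v - p‖ ^ 2 + ‖p - w‖ ^ 2 := by
    have h5 : v - w = (v - p) + (p - w) := by abel
    have h6 : inner ℝ (v - p) (p - w) = 0 := by rw [inner_sub_right, h2, h3, sub_zero]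
    rw [h5, norm_add_sq_real, h6]; ring
  have h7 : ‖v - p‖ ≤ ‖v - w‖ := by
    have h8 : ‖v - p‖ ^ 2 ≤ ‖v - w‖ ^ 2 := by nlinarith [sq_nonneg ‖p - w‖]
    exact (sq_le_sq₀ (norm_nonneg _) (norm_nonneg _)).1 h8
  rw [dist_comm, dist_eq_norm]
  exact h7.trans_lt hF

end abs

/-! ### `L²` -/

theorem inner_toLp (v w : E3 → E3) (hv : MemLp v 2 volume) (hw : MemLp w 2 volume) :
    inner ℝ (hv.toLp v) (hw.toLp w) = ipr v w := by
  rw [L2.inner_def]
  unfold ipr
  refine integral_congr_ae ?_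
  filter_upwards [hv.coeFn_toLp, hw.coeFn_toLp] with x h1 h2
  rw [h1, h2]

theorem norm_sq_toLp (v : E3 → E3) (hv : MemLp v 2 volume) :
    ‖hv.toLp v‖ ^ 2 = ∫ x, ‖v x‖ ^ 2 := by
  rw [← real_inner_self_eq_norm_sq, inner_toLp]
  unfold ipr
  simp only [real_inner_self_eq_norm_sq]

theorem CS.memLp {Ω : Set E3} {v : E3 → E3} (h : CS Ω v) : MemLp v 2 volume :=
  h.smooth.continuous.memLp_of_hasCompactSupport h.cpt

theorem memLp_sum {ι : Type} (e : ι → E3 → E3) (he : ∀ i, MemLp (e i) 2 volume) (F : Finset ι)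
    (b : ι → ℝ) : MemLp (fun x => ∑ a ∈ F, b a • e a x) 2 volume :=
  memLp_finsetSum (f := fun a x => b a • e a x) F fun a _ => (he a).const_smul (b a)

theorem toLp_sum {ι : Type} (e : ι → E3 → E3) (he : ∀ i, MemLp (e i) 2 volume) (F : Finset ι)
    (b : ι → ℝ) : (memLp_sum e he F b).toLp _ = ∑ a ∈ F, b a • (he a).toLp (e a) := by
  classical
  induction F using Finset.induction_on with
  | empty =>
    simp only [Finset.sum_empty]
    exact MemLp.toLp_zero _
  | insert a F ha ih =>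
    rw [Finset.sum_insert ha, ← ih, ← MemLp.toLp_const_smul, ← MemLp.toLp_add]
    congr 1
    funext x
    simp [Finset.sum_insert ha]

theorem approx {ι : Type} {Ω : Set E3} (e : ι → E3 → E3) (he : ∀ i, MemLp (e i) 2 volume)
    (hc : ∀ v, CS Ω v → ∀ ε > 0, ∃ (F : Finset ι) (b : ι → ℝ),
      ∫ x, ‖v x - ∑ a ∈ F, b a • e a x‖ ^ 2 < ε) (v : E3 → E3) (hv : InH Ω v) :
    ∀ ε > 0, ∃ (F : Finset ι) (b : ι → ℝ),
      ‖hv.1.toLp v - ∑ a ∈ F, b a • (he a).toLp (e a)‖ < ε := by
  intro ε hε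
  obtain ⟨w, hw, h1⟩ := hv.2 ((ε / 2) ^ 2) (by positivity)
  obtain ⟨F, b, h2⟩ := hc w hw ((ε / 2) ^ 2) (by positivity)
  refine ⟨F, b, ?_⟩
  have hwm := CS.memLp hw
  have h3 : ‖hv.1.toLp v - hwm.toLp w‖ < ε / 2 := by
    have h4 : ‖hv.1.toLp v - hwm.toLp w‖ ^ 2 < (ε / 2) ^ 2 := by
      rw [← MemLp.toLp_sub, norm_sq_toLp]
      exact h1
    exact lt_of_pow_lt_pow_left₀ 2 (by positivity) h4
  have h5 : ‖hwm.toLp w - ∑ a ∈ F, b a • (he a).toLp (e a)‖ < ε / 2 := by
    have h4 : ‖hwm.toLp w - ∑ a ∈ F, b a • (he a).toLp (e a)‖ ^ 2 < (ε / 2) ^ 2 := by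
      rw [← toLp_sum, ← MemLp.toLp_sub, norm_sq_toLp]
      exact h2
    exact lt_of_pow_lt_pow_left₀ 2 (by positivity) h4
  calc _ = ‖(hv.1.toLp v - hwm.toLp w) + (hwm.toLp w - ∑ a ∈ F, b a • (he a).toLp (e a))‖ := by
        congr 1; abel
    _ ≤ ‖hv.1.toLp v - hwm.toLp w‖ + ‖hwm.toLp w - ∑ a ∈ F, b a • (he a).toLp (e a)‖ :=
        norm_add_le _ _
    _ < ε := by linarith

theorem ipr_comm (v w : E3 → E3) : ipr v w = ipr w v := by
  unfold ipr
  simp only [real_inner_comm]

/-- Parseval. -/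
theorem parseval {ι : Type} {Ω : Set E3} {e : ι → E3 → E3} {σ : ι → ι} {s : ι → ℝ}
    (hS : SkewD Ω e σ s) (v f : E3 → E3) (hv : InH Ω v) (hf : MemLp f 2 volume) :
    HasSum (fun i => ipr v (e i) * ipr f (e i)) (ipr v f) := by
  have he : ∀ i, MemLp (e i) 2 volume := fun i => CS.memLp (hS.field i)
  have ho : Orthonormal ℝ (fun i => (he i).toLp (e i)) := by
    classical
    rw [orthonormal_iff_ite]
    intro i j
    rw [inner_toLp]
    split_ifs with h
    · exact (hS.orth i j).1 h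
    · exact (hS.orth i j).2 h
  have h1 := hasSum_of_approx _ ho _ (approx e he hS.compl v hv)
  have h2 := h1.mapL (innerSL ℝ (hf.toLp f))
  simp only [innerSL_apply_apply, inner_smul_right, inner_toLp] at h2
  rw [ipr_comm v f]
  have h3 : (fun i => ipr v (e i) * ipr f (e i)) = fun b => ipr (e b) v * ipr f (e b) := by
    funext i; rw [ipr_comm v (e i)]
  rw [h3]; exact h2

/-! ### Integration by parts -/

/-- the Laplacian -/
noncomputable def lap (u : E3 → E3) (x : E3) : E3 :=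
  ∑ i : Fin 3, fderiv ℝ (fderiv ℝ u) x (cv i) (cv i)

theorem int_cc {F : Type*} [NormedAddCommGroup F] [NormedSpace ℝ F] (f : E3 → F)
    (hf : Continuous f) (K : Set E3) (hK : IsCompact K) (h0 : ∀ x ∉ K, f x = 0) :
    Integrable f := by
  refine hf.integrable_of_hasCompactSupport ?_
  exact HasCompactSupport.intro hK h0

/-- `∫ ∇u : ∇g = - ∫ Δu · g` -/
theorem dirf_eq (u g : E3 → E3) (hu : ContDiff ℝ 2 u) (hg : ContDiff ℝ 1 g)
    (hgc : HasCompactSupport g) : dirf u g = -ipr (lap u) g := by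
  have hg0 : ∀ x ∉ tsupport g, g x = 0 := fun x hx => image_eq_zero_of_notMem_tsupport hx
  have hg1 : ∀ x ∉ tsupport g, fderiv ℝ g x = 0 := fun x hx =>
    image_eq_zero_of_notMem_tsupport fun h => hx (tsupport_fderiv_subset ℝ h)
  have hu1 : ContDiff ℝ 1 (fderiv ℝ u) := hu.fderiv_right (by norm_num)
  have hu1c : Continuous (fderiv ℝ u) := hu1.continuous
  have hu2c : Continuous (fderiv ℝ (fderiv ℝ u)) := hu1.continuous_fderiv (by norm_num)
  have hgc0 : Continuous g := hg.continuous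
  have hgc1 : Continuous (fderiv ℝ g) := hg.continuous_fderiv (by norm_num)
  have i1 : ∀ i : Fin 3, Integrable (fun x => inner ℝ (fderiv ℝ u x (cv i))
      (fderiv ℝ g x (cv i))) := fun i =>
    int_cc _ ((hu1c.clm_apply continuous_const).inner (hgc1.clm_apply continuous_const))
      (tsupport g) hgc fun x hx => by rw [hg1 x hx]; simp
  have i2 : ∀ i : Fin 3, Integrable (fun x => inner ℝ (fderiv ℝ (fderiv ℝ u) x (cv i) (cv i))
      (g x)) := fun i =>
    int_cc _ (((hu2c.clm_apply continuous_const).clm_apply continuous_const).inner hgc0)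
      (tsupport g) hgc fun x hx => by rw [hg0 x hx]; simp
  have i3 : ∀ i : Fin 3, Integrable (fun x => inner ℝ (fderiv ℝ u x (cv i)) (g x)) := fun i =>
    int_cc _ ((hu1c.clm_apply continuous_const).inner hgc0)
      (tsupport g) hgc fun x hx => by rw [hg0 x hx]; simp
  have key : ∀ i : Fin 3, ∫ x, inner ℝ (fderiv ℝ u x (cv i)) (fderiv ℝ g x (cv i)) =
      -∫ x, inner ℝ (fderiv ℝ (fderiv ℝ u) x (cv i) (cv i)) (g x) := by
    intro i
    have hd : ∀ x, HasFDerivAt (fun x => fderiv ℝ u x (cv i))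
        ((fderiv ℝ (fderiv ℝ u) x).flip (cv i)) x := by
      intro x
      have h1 := ((hu1.differentiable (by norm_num)) x).hasFDerivAt
      have h2 := h1.clm_apply (hasFDerivAt_const (cv i) x)
      refine h2.congr_fderiv ?_
      ext v
      simp
    have := integral_bilinear_hasFDerivAt_right_eq_neg_left_of_integrable
      (μ := (volume : Measure E3)) (f := fun x => fderiv ℝ u x (cv i))
      (f' := fun x => (fderiv ℝ (fderiv ℝ u) x).flip (cv i)) (g := g) (g' := fderiv ℝ g)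
      (v := cv i) (B := innerSL ℝ) (i2 i) (i1 i)
      (i3 i) (fun x _ => hd x)
      (fun x _ => (hg.differentiable (by norm_num) x).hasFDerivAt)
    exact this
  unfold dirf ipr lap
  rw [integral_finsetSum _ fun i _ => i1 i]
  simp only [key, sum_inner]
  rw [integral_finsetSum _ fun i _ => i2 i, Finset.sum_neg_distrib]

theorem expand (y : E3) : y = ∑ i : Fin 3, y i • cv i := by
  ext j
  simp [cv, Pi.single_apply]

/-- `∫ (u·∇)u · u = 0` -/
theorem adv_self (u : E3 → E3) (hu : ContDiff ℝ 1 u) (huc : HasCompactSupport u)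
    (hdiv : ∀ x, dvg u x = 0) : adv u u u = 0 := by
  have hu0 : ∀ x ∉ tsupport u, u x = 0 := fun x hx => image_eq_zero_of_notMem_tsupport hx
  have huc0 : Continuous u := hu.continuous
  have huc1 : Continuous (fderiv ℝ u) := hu.continuous_fderiv (by norm_num)
  have hud : ∀ x, HasFDerivAt u (fderiv ℝ u x) x := fun x =>
    (hu.differentiable (by norm_num) x).hasFDerivAt
  have hcoord : ∀ i : Fin 3, Continuous (fun x => u x i) := fun i =>
    (EuclideanSpace.proj i).continuous.comp huc0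
  have hcoord1 : ∀ i j : Fin 3, Continuous (fun x => (fderiv ℝ u x (cv j)) i) := fun i j =>
    (EuclideanSpace.proj i).continuous.comp (huc1.clm_apply continuous_const)
  have i1 : ∀ i : Fin 3, Integrable (fun x => (fderiv ℝ u x (cv i)) i * (‖u x‖ ^ 2)) := fun i =>
    int_cc _ ((hcoord1 i i).mul (huc0.norm.pow 2)) (tsupport u) huc fun x hx => by
      rw [hu0 x hx]; simp
  have i2 : ∀ i : Fin 3, Integrable (fun x => u x i * (2 * inner ℝ (u x)
      (fderiv ℝ u x (cv i)))) := fun i =>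
    int_cc _ ((hcoord i).mul (continuous_const.mul (huc0.inner
      (huc1.clm_apply continuous_const)))) (tsupport u) huc fun x hx => by
      rw [hu0 x hx]; simp
  have i3 : ∀ i : Fin 3, Integrable (fun x => u x i * (‖u x‖ ^ 2)) := fun i =>
    int_cc _ ((hcoord i).mul (huc0.norm.pow 2)) (tsupport u) huc fun x hx => by
      rw [hu0 x hx]; simp
  have key : ∀ i : Fin 3, ∫ x, u x i * (2 * inner ℝ (u x) (fderiv ℝ u x (cv i))) =
      -∫ x, (fderiv ℝ u x (cv i)) i * (‖u x‖ ^ 2) := by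
    intro i
    have hd1 : ∀ x, HasFDerivAt (fun x => u x i)
        ((EuclideanSpace.proj i : E3 →L[ℝ] ℝ).comp (fderiv ℝ u x)) x := fun x =>
      (EuclideanSpace.proj i : E3 →L[ℝ] ℝ).hasFDerivAt.comp x (hud x)
    have hd2 : ∀ x, HasFDerivAt (fun x => ‖u x‖ ^ 2)
        (2 • (innerSL ℝ (u x)).comp (fderiv ℝ u x)) x := fun x => (hud x).norm_sq
    have := integral_bilinear_hasFDerivAt_right_eq_neg_left_of_integrable
      (μ := (volume : Measure E3)) (f := fun x => u x i)
      (f' := fun x => (EuclideanSpace.proj i : E3 →L[ℝ] ℝ).comp (fderiv ℝ u x))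
      (g := fun x => ‖u x‖ ^ 2) (g' := fun x => 2 • (innerSL ℝ (u x)).comp (fderiv ℝ u x))
      (v := cv i) (B := ContinuousLinearMap.mul ℝ ℝ) (by simpa using i1 i) (by simpa using i2 i)
      (by simpa using i3 i) (fun x _ => hd1 x) (fun x _ => hd2 x)
    simpa using this
  have h1 : ∀ x, inner ℝ (fderiv ℝ u x (u x)) (u x) =
      1 / 2 * ∑ i : Fin 3, u x i * (2 * inner ℝ (u x) (fderiv ℝ u x (cv i))) := by
    intro x
    have h2 : fderiv ℝ u x (u x) = ∑ i : Fin 3, u x i • fderiv ℝ u x (cv i) := by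
      conv_lhs => rw [expand (u x)]
      rw [map_sum]
      exact Finset.sum_congr rfl fun i _ => by rw [map_smul]
    rw [h2, sum_inner, Finset.mul_sum]
    refine Finset.sum_congr rfl fun i _ => ?_
    rw [real_inner_smul_left, real_inner_comm]
    ring
  unfold adv
  simp only [h1]
  rw [integral_const_mul, integral_finsetSum _ fun i _ => i2 i]
  simp only [key]
  rw [Finset.sum_neg_distrib, ← integral_finsetSum _ fun i _ => i1 i]
  have h2 : ∀ x, ∑ i : Fin 3, (fderiv ℝ u x (cv i)) i * (‖u x‖ ^ 2) = 0 := by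
    intro x
    rw [← Finset.sum_mul]
    have := hdiv x
    unfold dvg at this
    rw [this, zero_mul]
  simp only [h2]
  simp

end Pool.Agent.Y500.SK
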